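import Pool.Agent.SHC.Geo

/-!
# The bicombing inequality for one group element at a time

Let `G` act properly and cocompactly by isometries on a proper metric space `X` in which any two
points have exactly one midpoint and in which locally straight chains are straight (for example
the universal cover of a closed Riemannian manifold without conjugate points, or any straight space
in the sense of Busemann). Then for all `a`, `h` in `G` there is a word with value `h` along which
all conjugates of `a` have length at most `K (1 + max (|a|, |h⁻¹ a h|))`.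
-/

namespace Pool.Agent.Results.MP_e8e816_gt.OneElementCombing

open Pool.Agent.SHC

theorem result {X : Type*} [MetricSpace X] [ProperSpace X] (hX : Straight X)
    {G : Type*} [Group G] [MulAction G X] [IsIsometricSMul G X]
    (hp : ∀ (x : X) (r : ℝ), {g : G | dist x (g • x) ≤ r}.Finite)
    (hc : ∃ (x : X) (R : ℝ), ∀ y : X, ∃ g : G, dist y (g • x) ≤ R)
    (S : Set G) (hS : S.Finite) (hgen : Subgroup.closure S = ⊤) :
    ∃ K : ℕ, ∀ (n : ℕ) (a : G), InBall S n a →
      (∀ h : G, InBall S n (h⁻¹ * a * h) →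
        (∃ l : List G, IsWord S l ∧ l.prod = h ∧
          ∀ k : ℕ, InBall S (K * (n + 1)) ((l.take k).prod⁻¹ * a * (l.take k).prod)) ∧
        ∃ g : G, InBall S (K ^ (n + 1)) g ∧ g⁻¹ * a * g = h⁻¹ * a * h) ∧
      Subgroup.closure {z : G | z ∈ Subgroup.centralizer {a} ∧ InBall S (K ^ (n + 1)) z} =
        Subgroup.centralizer {a} := by
  obtain ⟨K1, hK1⟩ := exists_path hX hp hc hS hgen
  set q := 2 * S.ncard + 1 with hq
  have hq1 : 1 ≤ q := by omega
  have hqK : 1 ≤ q ^ K1 := Nat.one_le_pow _ _ hq1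
  refine ⟨K1 + 3 * q ^ K1, fun n a ha => ⟨fun h hh => ⟨?_, ?_⟩, ?_⟩⟩
  · obtain ⟨l, hl1, hl2, hl3⟩ := hK1 n a h ha hh
    exact ⟨l, hl2, hl1, fun k => (hl3 k).mono (Nat.mul_le_mul_right _ (by omega))⟩
  · obtain ⟨l, hl1, hl2⟩ := hK1 n a h ha hh
    obtain ⟨l', hl1', hl2', hl3'⟩ := hl2.short hS
    refine ⟨l'.prod, (InBall.word hl1'.1).mono ?_, by rw [hl2', hl1]⟩
    calc l'.length ≤ q ^ (K1 * (n + 1)) := hl3'
      _ = (q ^ K1) ^ (n + 1) := pow_mul _ _ _
      _ ≤ (K1 + 3 * q ^ K1) ^ (n + 1) := Nat.pow_le_pow_left (by omega) _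
  · have hz : ∀ z ∈ Subgroup.centralizer {a}, ∃ l : List G, l.prod = z ∧
        Path S (K1 * (n + 1)) a l := by
      intro z hz
      refine hK1 n a z ha ?_
      rw [Subgroup.mem_centralizer_iff] at hz
      have h5 := hz a rfl
      rw [mul_assoc, h5, inv_mul_cancel_left]
      exact ha
    have h1 := centralizer_gen hS hz
    have h2 : 2 * q ^ (K1 * (n + 1)) + 1 ≤ (K1 + 3 * q ^ K1) ^ (n + 1) := by
      have h3 : 1 ≤ q ^ (K1 * (n + 1)) := Nat.one_le_pow _ _ hq1
      calc 2 * q ^ (K1 * (n + 1)) + 1 ≤ 3 * q ^ (K1 * (n + 1)) := by omega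
        _ = 3 ^ 1 * (q ^ K1) ^ (n + 1) := by rw [pow_mul, pow_one]
        _ ≤ 3 ^ (n + 1) * (q ^ K1) ^ (n + 1) :=
          Nat.mul_le_mul_right _ (Nat.pow_le_pow_right (by norm_num) (by omega))
        _ = (3 * q ^ K1) ^ (n + 1) := (mul_pow _ _ _).symm
        _ ≤ (K1 + 3 * q ^ K1) ^ (n + 1) := Nat.pow_le_pow_left (by omega) _
    apply le_antisymm
    · rw [Subgroup.closure_le]
      exact fun z hz => hz.1
    · conv_lhs => rw [← h1]
      refine Subgroup.closure_mono ?_
      rintro z ⟨hz1, hz2⟩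
      exact ⟨hz1, hz2.mono h2⟩

end Pool.Agent.Results.MP_e8e816_gt.OneElementCombing
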